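import Pool.Agent.Helper18.KO.Defs
import Pool.Agent.Helper18.KC.Basic

/-!
# Part REG: the regions
-/

set_option autoImplicit false
set_option linter.unusedSectionVars false

namespace BNTW

open Finset

namespace Reg

variable {V E : Type} [Fintype V] [Fintype E] [DecidableEq V] [DecidableEq E]
variable {ends : E → V × V} {b : ℕ} {L : Finset (Finset E)} {t : Finset E} {S : Finset V}

lemma mem_U3 {D : Finset E} : D ∈ U3 ends L t S ↔ D ∈ L ∧ D ⊆ t ∧ ∃ x ∈ S, ∃ y ∈ S, ∃ z ∈ S,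
    ¬ Cn ends (t \ D) x y ∧ ¬ Cn ends (t \ D) x z ∧ ¬ Cn ends (t \ D) y z := by
  unfold U3
  simp only [mem_filter]

lemma mem_F3 {c : Finset E} : c ∈ F3 ends L t S ↔ c ∈ L ∧ c ⊆ t ∧
    (∀ D ∈ L, c ⊂ D → D ⊆ t → D ∈ U3 ends L t S) ∧ (c ∉ U3 ends L t S ∨ c.card = 1) := by
  unfold F3
  simp only [mem_filter]

lemma U3_L {D : Finset E} (h : D ∈ U3 ends L t S) : D ∈ L := (mem_U3.1 h).1

lemma U3_sub {D : Finset E} (h : D ∈ U3 ends L t S) : D ⊆ t := (mem_U3.1 h).2.1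

lemma U3_up {D D' : Finset E} (h : D ∈ U3 ends L t S) (hD' : D' ∈ L) (hs : D ⊆ D')
    (ht : D' ⊆ t) : D' ∈ U3 ends L t S := by
  rw [mem_U3] at h ⊢
  obtain ⟨_, _, x, hx, y, hy, z, hz, h1, h2, h3⟩ := h
  have hm : t \ D' ⊆ t \ D := sdiff_subset_sdiff (Subset.refl _) hs
  exact ⟨hD', ht, x, hx, y, hy, z, hz, fun h => h1 (h.mono hm), fun h => h2 (h.mono hm),
    fun h => h3 (h.mono hm)⟩

lemma ne_of_L (hL : Lam ends b L) {A : Finset E} (hA : A ∈ L) : A.Nonempty := (hL.conn A hA).1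

/-- members of `L` with a common element are nested -/
lemma nest (hL : Lam ends b L) {A B : Finset E} (hA : A ∈ L) (hB : B ∈ L) {e : E} (heA : e ∈ A)
    (heB : e ∈ B) : A ⊆ B ∨ B ⊆ A := by
  rcases hL.lam A hA B hB with h | h | h
  · exact Or.inl h
  · exact Or.inr h
  · exact absurd heB ((Finset.disjoint_left.1 h) heA)

/-- two members of `L` containing the same member are nested -/
lemma nest' (hL : Lam ends b L) {A B C : Finset E} (hA : A ∈ L) (hB : B ∈ L) (hC : C ∈ L)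
    (hCA : C ⊆ A) (hCB : C ⊆ B) : A ⊆ B ∨ B ⊆ A := by
  obtain ⟨e, he⟩ := ne_of_L hL hC
  exact nest hL hA hB (hCA he) (hCB he)

/-- the smallest member properly containing `f` -/
lemma exists_par (hL : Lam ends b L) (ht : t ∈ L) {f : Finset E} (hf : f ∈ L) (hft : f ⊂ t) :
    ∃ P ∈ L, f ⊂ P ∧ P ⊆ t ∧ ∀ D ∈ L, f ⊂ D → P ⊆ D := by
  classical
  have hne : (L.filter (fun D => f ⊂ D)).Nonempty := ⟨t, mem_filter.2 ⟨ht, hft⟩⟩
  obtain ⟨P, hP, hmin⟩ := exists_min_image (L.filter (fun D => f ⊂ D)) card hne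
  rw [mem_filter] at hP
  have key : ∀ D ∈ L, f ⊂ D → P ⊆ D := by
    intro D hD hfD
    rcases nest' hL hP.1 hD hf hP.2.1 hfD.1 with h | h
    · exact h
    · have h1 := hmin D (mem_filter.2 ⟨hD, hfD⟩)
      rw [eq_of_subset_of_card_le h h1]
  exact ⟨P, hP.1, hP.2, key t ht hft, key⟩

/-- the child of `P` containing `C` -/
lemma exists_chd {C P : Finset E} (hC : C ∈ L) (hCP : C ⊂ P) :
    ∃ Q ∈ L, C ⊆ Q ∧ Q ⊂ P ∧ ∀ D ∈ L, Q ⊆ D → D ⊂ P → D = Q := by
  classical
  have hne : (L.filter (fun D => C ⊆ D ∧ D ⊂ P)).Nonempty :=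
    ⟨C, mem_filter.2 ⟨hC, Subset.refl _, hCP⟩⟩
  obtain ⟨Q, hQ, hmax⟩ := exists_max_image (L.filter (fun D => C ⊆ D ∧ D ⊂ P)) card hne
  rw [mem_filter] at hQ
  refine ⟨Q, hQ.1, hQ.2.1, hQ.2.2, ?_⟩
  intro D hD hQD hDP
  have h1 := hmax D (mem_filter.2 ⟨hD, hQ.2.1.trans hQD, hDP⟩)
  exact (eq_of_subset_of_card_le hQD h1).symm

lemma bag' (hL : Lam ends b L) {A : Finset E} (hA : A ∈ L) : ∃ B : Finset V, B.card ≤ b ∧
    ∀ C ∈ L, C ⊂ A → (∀ D ∈ L, C ⊆ D → D ⊂ A → D = C) → bdry ends C ⊆ B := by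
  by_cases h : 1 < A.card
  · exact hL.bag A hA h
  · refine ⟨∅, by simp, ?_⟩
    intro C hC hCA
    exfalso
    have h1 := card_lt_card hCA
    have h2 := (ne_of_L hL hC).card_pos
    omega

/-- members of `F3` are pairwise disjoint -/
lemma F3_eq (hL : Lam ends b L) {f g : Finset E} (hf : f ∈ F3 ends L t S)
    (hg : g ∈ F3 ends L t S) {e : E} (hef : e ∈ f) (heg : e ∈ g) : f = g := by
  have aux : ∀ f g : Finset E, f ∈ F3 ends L t S → g ∈ F3 ends L t S → f ⊆ g → f = g := by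
    intro f g hf hg hfg
    by_contra hne
    have hss : f ⊂ g := hfg.ssubset_of_ne hne
    rw [mem_F3] at hf hg
    have h1 := hf.2.2.1 g hg.1 hss hg.2.1
    rcases hg.2.2.2 with h | h
    · exact h h1
    · have h2 := card_lt_card hss
      have h3 := (ne_of_L hL hf.1).card_pos
      omega
  rcases nest hL (mem_F3.1 hf).1 (mem_F3.1 hg).1 hef heg with h | h
  · exact aux f g hf hg h
  · exact (aux g f hg hf h).symm

/-- members of `F3` cover `t` -/
lemma F3_cover (hL : Lam ends b L) (_ht : t ∈ U3 ends L t S) {e : E} (he : e ∈ t) :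
    ∃ f ∈ F3 ends L t S, e ∈ f := by
  classical
  by_cases h : {e} ∈ U3 ends L t S
  · refine ⟨{e}, mem_F3.2 ⟨U3_L h, U3_sub h, ?_, Or.inr (card_singleton e)⟩, mem_singleton_self e⟩
    intro D hD hs hDt
    exact U3_up h hD hs.1 hDt
  · have hne : (L.filter (fun D => e ∈ D ∧ D ⊆ t ∧ D ∉ U3 ends L t S)).Nonempty :=
      ⟨{e}, mem_filter.2 ⟨hL.single e, mem_singleton_self e, by simpa using he, h⟩⟩
    obtain ⟨Q, hQ, hmax⟩ := exists_max_image
      (L.filter (fun D => e ∈ D ∧ D ⊆ t ∧ D ∉ U3 ends L t S)) card hne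
    rw [mem_filter] at hQ
    refine ⟨Q, mem_F3.2 ⟨hQ.1, hQ.2.2.1, ?_, Or.inl hQ.2.2.2⟩, hQ.2.1⟩
    intro D hD hs hDt
    by_contra hDU
    have h1 := hmax D (mem_filter.2 ⟨hD, hs.1 hQ.2.1, hDt, hDU⟩)
    have h2 := card_lt_card hs
    omega

lemma F3_ssub (hU : t ∈ U3 ends L t S) (h1 : 1 < t.card) {f : Finset E}
    (hf : f ∈ F3 ends L t S) : f ⊂ t := by
  refine (mem_F3.1 hf).2.1.ssubset_of_ne ?_
  rintro rfl
  rcases (mem_F3.1 hf).2.2.2 with h | h
  · exact h hU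
  · omega

/-- a member of `U3` with at least two edges inside (or equal to) a member of `F3` is
impossible -/
lemma not_U3_sub {P f : Finset E} (hP : P ∈ U3 ends L t S) (hP1 : 1 < P.card)
    (hf : f ∈ F3 ends L t S) (h : P ⊆ f) : False := by
  rw [mem_F3] at hf
  have h1 := U3_up hP hf.1 h hf.2.1
  rcases hf.2.2.2 with h2 | h2
  · exact h2 h1
  · have := card_le_card h
    omega

/-- The minimal members of `U3`. -/
noncomputable def Mn (ends : E → V × V) (L : Finset (Finset E)) (t : Finset E) (S : Finset V) :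
    Finset (Finset E) :=
  (U3 ends L t S).filter (fun D => ∀ D' ∈ U3 ends L t S, D' ⊆ D → D' = D)

/-- The minimal members of `U3` inside `P`. -/
noncomputable def MP (ends : E → V × V) (L : Finset (Finset E)) (t : Finset E) (S : Finset V)
    (P : Finset E) : Finset (Finset E) := (Mn ends L t S).filter (fun D => D ⊆ P)

lemma mem_Mn {D : Finset E} : D ∈ Mn ends L t S ↔ D ∈ U3 ends L t S ∧
    ∀ D' ∈ U3 ends L t S, D' ⊆ D → D' = D := by
  unfold Mn
  rw [mem_filter]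

lemma mem_MP {P D : Finset E} : D ∈ MP ends L t S P ↔ D ∈ Mn ends L t S ∧ D ⊆ P := by
  unfold MP
  rw [mem_filter]

lemma MP_mono {P P' : Finset E} (h : P ⊆ P') : MP ends L t S P ⊆ MP ends L t S P' := by
  intro D hD
  rw [mem_MP] at hD ⊢
  exact ⟨hD.1, hD.2.trans h⟩

lemma MP_ne {P : Finset E} (hP : P ∈ U3 ends L t S) : (MP ends L t S P).Nonempty := by
  classical
  have hne : ((U3 ends L t S).filter (fun D => D ⊆ P)).Nonempty :=
    ⟨P, mem_filter.2 ⟨hP, Subset.refl _⟩⟩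
  obtain ⟨Q, hQ, hmin⟩ := exists_min_image ((U3 ends L t S).filter (fun D => D ⊆ P)) card hne
  rw [mem_filter] at hQ
  refine ⟨Q, mem_MP.2 ⟨mem_Mn.2 ⟨hQ.1, ?_⟩, hQ.2⟩⟩
  intro D' hD' hs
  exact eq_of_subset_of_card_le hs (hmin D' (mem_filter.2 ⟨hD', hs.trans hQ.2⟩))

/-- members of `U3` with the same minimal members are nested -/
lemma chain (hL : Lam ends b L) {P P' : Finset E} (hP : P ∈ U3 ends L t S)
    (hP' : P' ∈ U3 ends L t S) (h : MP ends L t S P = MP ends L t S P') : P ⊆ P' ∨ P' ⊆ P := by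
  obtain ⟨D, hD⟩ := MP_ne hP
  have hD' := hD
  rw [h] at hD'
  rw [mem_MP] at hD hD'
  exact nest' hL (U3_L hP) (U3_L hP') (U3_L (mem_Mn.1 hD.1).1) hD.2 hD'.2

/-- the number of the sets `MP P` -/
lemma pair_of (hL : Lam ends b L) {P : Finset E} (hP : P ∈ U3 ends L t S) :
    ∃ D ∈ Mn ends L t S, ∃ D' ∈ Mn ends L t S, MP ends L t S P =
      (Mn ends L t S).filter (fun D'' => ∀ Q ∈ L, D ⊆ Q → D' ⊆ Q → D'' ⊆ Q) := by
  classical
  have hne : ((U3 ends L t S).filter (fun P' => MP ends L t S P' = MP ends L t S P)).Nonempty :=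
    ⟨P, mem_filter.2 ⟨hP, rfl⟩⟩
  obtain ⟨P0, hP0, hmin⟩ := exists_min_image
    ((U3 ends L t S).filter (fun P' => MP ends L t S P' = MP ends L t S P)) card hne
  rw [mem_filter] at hP0
  obtain ⟨D, hD⟩ := MP_ne hP0.1
  by_cases hex : ∃ D' ∈ MP ends L t S P0, ∀ Q ∈ L, D ⊆ Q → D' ⊆ Q → P0 ⊆ Q
  · obtain ⟨D', hD', hall⟩ := hex
    refine ⟨D, (mem_MP.1 hD).1, D', (mem_MP.1 hD').1, ?_⟩
    rw [← hP0.2]
    ext D''
    rw [mem_MP, mem_filter]
    constructor
    · rintro ⟨h1, h2⟩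
      exact ⟨h1, fun Q hQ h3 h4 => h2.trans (hall Q hQ h3 h4)⟩
    · rintro ⟨h1, h2⟩
      exact ⟨h1, h2 P0 (U3_L hP0.1) (mem_MP.1 hD).2 (mem_MP.1 hD').2⟩
  · exfalso
    push Not at hex
    obtain ⟨Q0, hQ0, h1, _, h2⟩ := hex D hD
    have hne2 : (L.filter (fun Q => D ⊆ Q ∧ ¬ P0 ⊆ Q)).Nonempty := ⟨Q0, mem_filter.2 ⟨hQ0, h1, h2⟩⟩
    obtain ⟨Q, hQ, hmax⟩ := exists_max_image (L.filter (fun Q => D ⊆ Q ∧ ¬ P0 ⊆ Q)) card hne2
    rw [mem_filter] at hQ
    have hDL : D ∈ L := U3_L (mem_Mn.1 (mem_MP.1 hD).1).1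
    have hQP : Q ⊆ P0 := by
      rcases nest' hL hQ.1 (U3_L hP0.1) hDL hQ.2.1 (mem_MP.1 hD).2 with h | h
      · exact h
      · exact absurd h hQ.2.2
    have hQU : Q ∈ U3 ends L t S :=
      U3_up (mem_Mn.1 (mem_MP.1 hD).1).1 hQ.1 hQ.2.1 (hQP.trans (U3_sub hP0.1))
    have hMQ : MP ends L t S Q = MP ends L t S P0 := by
      apply Subset.antisymm (MP_mono hQP)
      intro D' hD'
      obtain ⟨Q', hQ', h3, h4, h5⟩ := hex D' hD'
      have hQ'Q : Q' ⊆ Q := by
        rcases nest' hL hQ' hQ.1 hDL h3 hQ.2.1 with h | h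
        · exact h
        · have h6 := hmax Q' (mem_filter.2 ⟨hQ', h3, h5⟩)
          rw [eq_of_subset_of_card_le h h6]
      exact mem_MP.2 ⟨(mem_MP.1 hD').1, h4.trans hQ'Q⟩
    have h7 := hmin Q (mem_filter.2 ⟨hQU, hMQ.trans hP0.2⟩)
    exact hQ.2.2 (eq_of_subset_of_card_le hQP h7).symm.subset


section par

variable {par : Finset E → Finset E}

lemma par_U3 (hpar : ∀ f ∈ F3 ends L t S, par f ∈ L ∧ f ⊂ par f ∧ par f ⊆ t ∧
    ∀ D ∈ L, f ⊂ D → par f ⊆ D) {f : Finset E} (hf : f ∈ F3 ends L t S) :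
    par f ∈ U3 ends L t S :=
  (mem_F3.1 hf).2.2.1 _ (hpar f hf).1 (hpar f hf).2.1 (hpar f hf).2.2.1

lemma par_card (hL : Lam ends b L) (hpar : ∀ f ∈ F3 ends L t S, par f ∈ L ∧ f ⊂ par f ∧ par f ⊆ t ∧
    ∀ D ∈ L, f ⊂ D → par f ⊆ D) {f : Finset E} (hf : f ∈ F3 ends L t S) :
    1 < (par f).card := by
  have h1 := card_lt_card (hpar f hf).2.1
  have h2 := (ne_of_L hL (mem_F3.1 hf).1).card_pos
  omega

lemma par_child (hpar : ∀ f ∈ F3 ends L t S, par f ∈ L ∧ f ⊂ par f ∧ par f ⊆ t ∧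
    ∀ D ∈ L, f ⊂ D → par f ⊆ D) {f : Finset E} (hf : f ∈ F3 ends L t S) :
    ∀ D ∈ L, f ⊆ D → D ⊂ par f → D = f := by
  intro D hD hfD hDP
  by_contra hne
  have hss : f ⊂ D := hfD.ssubset_of_ne (fun h => hne h.symm)
  exact hDP.2 ((hpar f hf).2.2.2 D hD hss)

/-- the separators -/
lemma sep_key (hL : Lam ends b L) (hpar : ∀ f ∈ F3 ends L t S, par f ∈ L ∧ f ⊂ par f ∧
    par f ⊆ t ∧ ∀ D ∈ L, f ⊂ D → par f ⊆ D) {g c h : Finset E} (hg : g ∈ F3 ends L t S)
    (hc : c ∈ F3 ends L t S) (hh : h ∈ F3 ends L t S)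
    (hgc : MP ends L t S (par g) = MP ends L t S (par c))
    (hch : MP ends L t S (par c) = MP ends L t S (par h))
    (h1 : (par g).card ≤ (par c).card) (h2 : (par c).card ≤ (par h).card)
    {B : Finset V} (hB : ∀ C ∈ L, C ⊂ par c → (∀ D ∈ L, C ⊆ D → D ⊂ par c → D = C) →
      bdry ends C ⊆ B) {v : V} (hvg : v ∈ bdry ends g) (hvh : v ∈ bdry ends h) : v ∈ B := by
  by_cases e1 : par g = par c
  · refine hB g (mem_F3.1 hg).1 ?_ ?_ hvg
    · rw [← e1]; exact (hpar g hg).2.1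
    · rw [← e1]; exact par_child hpar hg
  by_cases e2 : par h = par c
  · refine hB h (mem_F3.1 hh).1 ?_ ?_ hvh
    · rw [← e2]; exact (hpar h hh).2.1
    · rw [← e2]; exact par_child hpar hh
  have s1 : par g ⊂ par c := by
    rcases chain hL (par_U3 hpar hg) (par_U3 hpar hc) hgc with h | h
    · exact h.ssubset_of_ne e1
    · exact absurd (eq_of_subset_of_card_le h h1).symm e1
  have s2 : par c ⊂ par h := by
    rcases chain hL (par_U3 hpar hc) (par_U3 hpar hh) hch with h | h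
    · exact h.ssubset_of_ne (fun h => e2 h.symm)
    · exact absurd (eq_of_subset_of_card_le h h2) e2
  obtain ⟨Q, hQ, hgQ, hQc, hmax⟩ := exists_chd (hpar g hg).1 s1
  have hdis : Disjoint h (par c) := by
    rcases hL.lam h (mem_F3.1 hh).1 (par c) (hpar c hc).1 with h' | h' | h'
    · exfalso
      by_cases e3 : h = par c
      · exact not_U3_sub (par_U3 hpar hc) (par_card hL hpar hc) hh e3.symm.subset
      · exact s2.2 ((hpar h hh).2.2.2 _ (hpar c hc).1 (h'.ssubset_of_ne e3))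
    · exact (not_U3_sub (par_U3 hpar hc) (par_card hL hpar hc) hh h').elim
    · exact h'
  have hdQ : Disjoint Q h := (hdis.mono_right hQc.1).symm
  have hvQ : v ∈ bdry ends Q :=
    mem_bdry_of_disjoint hdQ (VS_mono ((hpar g hg).2.1.1.trans hgQ) (bdry_subset_VS hvg))
      (bdry_subset_VS hvh)
  exact hB Q hQ hQc hmax hvQ

/-- the union of the pieces of a class -/
noncomputable def AA (ends : E → V × V) (L : Finset (Finset E)) (t : Finset E) (S : Finset V)
    (par : Finset E → Finset E) (m : Finset (Finset E)) : Finset E := by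
  classical
  exact ((F3 ends L t S).filter (fun f => MP ends L t S (par f) = m)).biUnion id

lemma mem_AA {m : Finset (Finset E)} {e : E} : e ∈ AA ends L t S par m ↔
    ∃ f ∈ F3 ends L t S, MP ends L t S (par f) = m ∧ e ∈ f := by
  unfold AA
  simp only [mem_biUnion, mem_filter, id, and_assoc]

lemma sub_AA {f : Finset E} (hf : f ∈ F3 ends L t S) :
    f ⊆ AA ends L t S par (MP ends L t S (par f)) :=
  fun _ he => mem_AA.2 ⟨f, hf, rfl, he⟩

lemma of_sub_AA (hL : Lam ends b L) {m : Finset (Finset E)} {f : Finset E}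
    (hf : f ∈ F3 ends L t S) (h : f ⊆ AA ends L t S par m) : MP ends L t S (par f) = m := by
  obtain ⟨e, he⟩ := ne_of_L hL (mem_F3.1 hf).1
  obtain ⟨g, hg, hgm, heg⟩ := mem_AA.1 (h he)
  rw [F3_eq hL hf hg he heg]
  exact hgm

/-- the boundary of a region -/
lemma bdry_AA (hL : Lam ends b L) (hU : t ∈ U3 ends L t S)
    (hpar : ∀ f ∈ F3 ends L t S, par f ∈ L ∧ f ⊂ par f ∧
    par f ⊆ t ∧ ∀ D ∈ L, f ⊂ D → par f ⊆ D) {f0 : Finset E} (hf0 : f0 ∈ F3 ends L t S) :
    (bdry ends (AA ends L t S par (MP ends L t S (par f0)))).card ≤ 2 * b := by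
  classical
  set m := MP ends L t S (par f0) with hm
  have hne : ((U3 ends L t S).filter (fun P => MP ends L t S P = m)).Nonempty :=
    ⟨par f0, mem_filter.2 ⟨par_U3 hpar hf0, rfl⟩⟩
  obtain ⟨Pt, hPt, hmax⟩ := exists_max_image
    ((U3 ends L t S).filter (fun P => MP ends L t S P = m)) card hne
  obtain ⟨Pb, hPb, hmin⟩ := exists_min_image
    ((U3 ends L t S).filter (fun P => MP ends L t S P = m)) card hne
  rw [mem_filter] at hPt hPb
  have htop : ∀ P ∈ U3 ends L t S, MP ends L t S P = m → P ⊆ Pt := by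
    intro P hP hPm
    rcases chain hL hP hPt.1 (hPm.trans hPt.2.symm) with h | h
    · exact h
    · rw [eq_of_subset_of_card_le h (hmax P (mem_filter.2 ⟨hP, hPm⟩))]
  have hbot : ∀ P ∈ U3 ends L t S, MP ends L t S P = m → Pb ⊆ P := by
    intro P hP hPm
    rcases chain hL hP hPb.1 (hPm.trans hPb.2.symm) with h | h
    · rw [eq_of_subset_of_card_le h (hmin P (mem_filter.2 ⟨hP, hPm⟩))]
    · exact h
  obtain ⟨B, hBc, hB⟩ := bag' hL (U3_L hPb.1)
  have hPt1 : 1 < Pt.card :=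
    lt_of_lt_of_le (par_card hL hpar hf0) (card_le_card (htop _ (par_U3 hpar hf0) rfl))
  have hsub : bdry ends (AA ends L t S par m) ⊆ bdry ends Pt ∪ B := by
    intro v hv
    rw [mem_bdry] at hv
    obtain ⟨hv1, e', he', hve'⟩ := hv
    obtain ⟨e0, he0, hve0⟩ := mem_VS.1 hv1
    obtain ⟨g, hg, hgm, he0g⟩ := mem_AA.1 he0
    have hgT : par g ⊆ Pt := htop _ (par_U3 hpar hg) hgm
    have hvg : v ∈ VS ends g := mem_VS.2 ⟨e0, he0g, hve0⟩
    rw [mem_union]
    by_cases hin : e' ∈ Pt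
    swap
    · left
      rw [mem_bdry]
      exact ⟨VS_mono ((hpar g hg).2.1.1.trans hgT) hvg, e', hin, hve'⟩
    right
    obtain ⟨h, hh, he'h⟩ := F3_cover hL hU (U3_sub hPt.1 hin)
    have hhm : MP ends L t S (par h) ≠ m := fun hc => he' (mem_AA.2 ⟨h, hh, hc, he'h⟩)
    have hhT : h ⊂ Pt := by
      rcases nest hL (mem_F3.1 hh).1 (U3_L hPt.1) he'h hin with h' | h'
      · refine h'.ssubset_of_ne ?_
        intro e3
        exact not_U3_sub hPt.1 hPt1 hh e3.symm.subset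
      · exact (not_U3_sub hPt.1 hPt1 hh h').elim
    have hphT : par h ⊆ Pt := (hpar h hh).2.2.2 _ (U3_L hPt.1) hhT
    have hms : MP ends L t S (par h) ⊆ m := by
      rw [← hPt.2]; exact MP_mono hphT
    have hphB : par h ⊂ Pb := by
      obtain ⟨D, hD⟩ := MP_ne (par_U3 hpar hh)
      have hDm := hms hD
      rw [← hPb.2] at hDm
      rw [mem_MP] at hD hDm
      rcases nest' hL (hpar h hh).1 (U3_L hPb.1) (U3_L (mem_Mn.1 hD.1).1) hD.2 hDm.2 with h' | h'
      · refine h'.ssubset_of_ne ?_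
        intro e3
        apply hhm
        rw [e3]
        exact hPb.2
      · exfalso
        apply hhm
        apply Subset.antisymm hms
        rw [← hPb.2]
        exact MP_mono h'
    obtain ⟨Q, hQ, hhQ, hQB, hQmax⟩ := exists_chd (hpar h hh).1 hphB
    have hQU : Q ∈ U3 ends L t S :=
      U3_up (par_U3 hpar hh) hQ hhQ (hQB.1.trans (U3_sub hPb.1))
    have hQ1 : 1 < Q.card := lt_of_lt_of_le (par_card hL hpar hh) (card_le_card hhQ)
    have hdis : Disjoint Q g := by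
      rcases hL.lam Q hQ g (mem_F3.1 hg).1 with h' | h' | h'
      · exact (not_U3_sub hQU hQ1 hg h').elim
      · exfalso
        by_cases e3 : g = Q
        · exact not_U3_sub hQU hQ1 hg e3.symm.subset
        · have h4 := (hpar g hg).2.2.2 Q hQ (h'.ssubset_of_ne e3)
          exact hQB.2 ((hbot _ (par_U3 hpar hg) hgm).trans h4)
      · exact h'
    have hvQ : v ∈ bdry ends Q :=
      mem_bdry_of_disjoint hdis
        (mem_VS.2 ⟨e', hhQ ((hpar h hh).2.1.1 he'h), hve'⟩) hvg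
    exact hB Q hQ hQB hQmax hvQ
  have h5 := card_le_card hsub
  have h6 := card_union_le (bdry ends Pt) B
  have h7 := hL.bcard Pt (U3_L hPt.1)
  omega

end par

end Reg

open Reg in
/-- Part REG. -/
theorem t_REG : S_REG := by
  classical
  intro V E _ _ _ _ ends b L hL t ht S _ hU ht1
  have hex : ∀ f, ∃ P : Finset E, f ∈ F3 ends L t S → P ∈ L ∧ f ⊂ P ∧ P ⊆ t ∧
      ∀ D ∈ L, f ⊂ D → P ⊆ D := by
    intro f
    by_cases hf : f ∈ F3 ends L t S
    · obtain ⟨P, h1, h2, h3, h4⟩ := exists_par hL ht (mem_F3.1 hf).1 (F3_ssub hU ht1 hf)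
      exact ⟨P, fun _ => ⟨h1, h2, h3, h4⟩⟩
    · exact ⟨∅, fun h => absurd h hf⟩
  choose par hpar using hex
  refine ⟨((F3 ends L t S).image (fun f => MP ends L t S (par f))).image (AA ends L t S par),
    ?_, ?_, ?_, ?_, ?_, ?_⟩
  · have h1 : (F3 ends L t S).image (fun f => MP ends L t S (par f)) ⊆
        ((Mn ends L t S) ×ˢ (Mn ends L t S)).image (fun q =>
          (Mn ends L t S).filter (fun D'' => ∀ Q ∈ L, q.1 ⊆ Q → q.2 ⊆ Q → D'' ⊆ Q)) := by
      intro m hm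
      obtain ⟨f, hf, rfl⟩ := mem_image.1 hm
      obtain ⟨D, hD, D', hD', h⟩ := pair_of hL (par_U3 hpar hf)
      refine mem_image.2 ⟨(D, D'), mem_product.2 ⟨hD, hD'⟩, ?_⟩
      exact h.symm
    calc _ ≤ ((F3 ends L t S).image (fun f => MP ends L t S (par f))).card := card_image_le
      _ ≤ _ := card_le_card h1
      _ ≤ ((Mn ends L t S) ×ˢ (Mn ends L t S)).card := card_image_le
      _ = (Mn ends L t S).card ^ 2 := by rw [card_product, pow_two]
  · intro A hA
    obtain ⟨m, hm, rfl⟩ := mem_image.1 hA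
    obtain ⟨f, hf, rfl⟩ := mem_image.1 hm
    refine ⟨?_, bdry_AA hL hU hpar hf⟩
    intro e he
    obtain ⟨g, hg, _, heg⟩ := mem_AA.1 he
    exact (mem_F3.1 hg).2.1 heg
  · intro A hA B hB hne
    obtain ⟨m, hm, rfl⟩ := mem_image.1 hA
    obtain ⟨m', hm', rfl⟩ := mem_image.1 hB
    rw [Finset.disjoint_left]
    intro e he he'
    obtain ⟨g, hg, hgm, heg⟩ := mem_AA.1 he
    obtain ⟨g', hg', hgm', heg'⟩ := mem_AA.1 he'
    have := F3_eq hL hg hg' heg heg'
    subst this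
    rw [hgm] at hgm'
    subst hgm'
    exact hne rfl
  · intro e he
    obtain ⟨f, hf, hef⟩ := F3_cover hL hU he
    exact ⟨_, mem_image_of_mem _ (mem_image_of_mem _ hf), sub_AA hf hef⟩
  · intro f hf
    exact ⟨_, mem_image_of_mem _ (mem_image_of_mem _ hf), sub_AA hf⟩
  · intro A hA
    obtain ⟨m, hm, rfl⟩ := mem_image.1 hA
    clear hm hA
    obtain ⟨N, idx, hidx⟩ : ∃ (N : ℕ) (idx : Finset E → ℕ), Function.Injective idx ∧
        ∀ f, idx f < N :=
      ⟨Fintype.card (Finset E), fun f => (Fintype.equivFin (Finset E) f : ℕ),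
        fun f g h => (Fintype.equivFin (Finset E)).injective (Fin.ext h), fun f => Fin.is_lt _⟩
    refine ⟨fun f => (par f).card * N + idx f, ?_, ?_⟩
    · intro f _ g _ h
      apply hidx.1
      have h1 := hidx.2 f
      have h2 := hidx.2 g
      simp only at h
      have h3 : ((par f).card * N + idx f) % N = ((par g).card * N + idx g) % N := by rw [h]
      rw [Nat.mul_comm, Nat.mul_add_mod, Nat.mul_comm, Nat.mul_add_mod,
        Nat.mod_eq_of_lt h1, Nat.mod_eq_of_lt h2] at h3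
      exact h3
    · intro c hc
      rw [mem_filter] at hc
      have hkey : ∀ f g : Finset E, (par f).card * N + idx f ≤ (par g).card * N + idx g →
          (par f).card ≤ (par g).card := by
        intro f g h
        by_contra hlt
        push Not at hlt
        have h1 := hidx.2 f
        have h2 := hidx.2 g
        have h3 : ((par g).card + 1) * N ≤ (par f).card * N := Nat.mul_le_mul_right _ hlt
        rw [Nat.add_mul] at h3
        omega
      obtain ⟨B, hBc, hB⟩ := bag' hL (hpar c hc.1).1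
      have hcm := of_sub_AA hL hc.1 hc.2
      refine (card_le_card ?_).trans hBc
      intro v hv
      rw [mem_union, mem_inter, mem_biUnion, mem_biUnion] at hv
      rcases hv with ⟨⟨g, hg, hvg⟩, h, hh, hvh⟩ | hv
      · rw [mem_filter, mem_filter] at hg hh
        have hgm := of_sub_AA hL hg.1.1 hg.1.2
        have hhm := of_sub_AA hL hh.1.1 hh.1.2
        exact sep_key hL hpar hg.1.1 hc.1 hh.1.1 (hgm.trans hcm.symm) (hcm.trans hhm.symm)
          (hkey _ _ hg.2) (hkey _ _ hh.2.le) hB hvg hvh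
      · exact hB c (mem_F3.1 hc.1).1 (hpar c hc.1).2.1 (par_child hpar hc.1) hv

end BNTW
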